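import Pool.Agent.H67.HM.Stm

/-! Crew HM, part TOEP (helper87). -/

set_option autoImplicit false

open Polynomial

namespace HM

/-- square of the `ℓ²` norm of a polynomial -/
noncomputable def N2 (x : ℂ[X]) : ℝ := ∑ i ∈ x.support, ‖x.coeff i‖ ^ 2

theorem N2_nonneg (x : ℂ[X]) : 0 ≤ N2 x := Finset.sum_nonneg fun _ _ => by positivity

theorem sum_range_le_N2 (x : ℂ[X]) (n : ℕ) : ∑ k ∈ Finset.range n, ‖x.coeff k‖ ^ 2 ≤ N2 x := by
  unfold N2
  calc ∑ k ∈ Finset.range n, ‖x.coeff k‖ ^ 2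
      = ∑ k ∈ (Finset.range n).filter (fun k => k ∈ x.support), ‖x.coeff k‖ ^ 2 := by
        symm
        apply Finset.sum_subset (Finset.filter_subset _ _)
        intro k hk hk2
        have : x.coeff k = 0 := by
          by_contra h
          exact hk2 (Finset.mem_filter.2 ⟨hk, mem_support_iff.2 h⟩)
        simp [this]
    _ ≤ _ := Finset.sum_le_sum_of_subset_of_nonneg
        (fun k hk => (Finset.mem_filter.1 hk).2) fun _ _ _ => by positivity

theorem N2_eq_range (x : ℂ[X]) {n : ℕ} (h : x.natDegree < n) :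
    N2 x = ∑ k ∈ Finset.range n, ‖x.coeff k‖ ^ 2 := by
  unfold N2
  apply Finset.sum_subset
  · intro k hk
    rw [Finset.mem_range]
    exact lt_of_le_of_lt (le_natDegree_of_mem_supp k hk) h
  · intro k _ hk2
    rw [notMem_support_iff] at hk2
    simp [hk2]

theorem Bd_two_iff (x : ℂ[X]) (B : ℝ) : Bd 2 x.coeff B ↔ N2 x ≤ B := by
  unfold Bd
  simp only [Real.rpow_two]
  constructor
  · intro h
    rw [N2_eq_range x (Nat.lt_succ_self _)]
    exact h _
  · intro h n
    exact (sum_range_le_N2 x n).trans h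

theorem N2_circle (x : ℂ[X]) : N2 x = Real.circleAverage (fun θ ↦ ‖x.eval θ‖ ^ 2) 0 1 :=
  x.sum_sq_norm_coeff_eq_circleAverage

theorem circ_int (x : ℂ[X]) : CircleIntegrable (fun θ : ℂ ↦ ‖x.eval θ‖ ^ 2) 0 1 := by
  apply ContinuousOn.circleIntegrable (by norm_num)
  have : Continuous fun θ : ℂ => ‖x.eval θ‖ ^ 2 := by fun_prop
  exact this.continuousOn

theorem N2_mul_le (g x : ℂ[X]) (s : ℝ) (hs : 0 ≤ s) (h : ∀ z : ℂ, ‖z‖ = 1 → ‖g.eval z‖ ≤ s) :
    N2 (g * x) ≤ s ^ 2 * N2 x := by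
  have e : s ^ 2 * N2 x = Real.circleAverage ((s ^ 2) • fun θ : ℂ ↦ ‖x.eval θ‖ ^ 2) 0 1 := by
    rw [Real.circleAverage_smul, smul_eq_mul, N2_circle]
  rw [e, N2_circle]
  apply Real.circleAverage_mono (circ_int _)
  · have := (circ_int x).const_smul (a := s ^ 2)
    exact this
  · intro z hz
    have hz1 : ‖z‖ = 1 := by simpa using hz
    have h1 := h z hz1
    simp only [eval_mul, norm_mul, Pi.smul_apply, smul_eq_mul]
    rw [mul_pow]
    apply mul_le_mul_of_nonneg_right _ (by positivity)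
    exact pow_le_pow_left₀ (norm_nonneg _) h1 2

theorem TOEP_proved : S_TOEP := by
  intro g x s B hs hg hx
  rw [Bd_two_iff] at hx ⊢
  refine (N2_mul_le g x s hs hg).trans ?_
  exact mul_le_mul_of_nonneg_left hx (by positivity)

end HM
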