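import Pool.Agent.H87.HM.NEU

/-! Crew HM, parts CORR, YNG, SPRN (helper87). -/

set_option autoImplicit false

open Polynomial Filter Topology

namespace HM

theorem YNG_proved : S_YNG := by
  intro A f B hB hf N
  set s := ∑ j ∈ A.support, ‖A.coeff j‖ with hs
  have hs0 : 0 ≤ s := Finset.sum_nonneg fun _ _ => norm_nonneg _
  have h1 : ∀ k, ‖cor A f k‖ ^ 2 ≤ s * ∑ j ∈ A.support, ‖A.coeff j‖ * ‖f (j + k)‖ ^ 2 := by
    intro k
    have e1 : ‖cor A f k‖ ≤ ∑ j ∈ A.support, ‖A.coeff j‖ * ‖f (j + k)‖ := by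
      unfold cor
      refine (norm_sum_le _ _).trans (le_of_eq ?_)
      exact Finset.sum_congr rfl fun j _ => norm_mul _ _
    have e2 : (∑ j ∈ A.support, ‖A.coeff j‖ * ‖f (j + k)‖) ^ 2 ≤
        (∑ j ∈ A.support, ‖A.coeff j‖) * ∑ j ∈ A.support, ‖A.coeff j‖ * ‖f (j + k)‖ ^ 2 := by
      apply Finset.sum_sq_le_sum_mul_sum_of_sq_le_mul
      · intro j _
        positivity
      · intro j _
        positivity
      · intro j _
        exact le_of_eq (by ring)
    exact (pow_le_pow_left₀ (norm_nonneg _) e1 2).trans e2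
  have h2 : ∀ j, ∑ k ∈ Finset.range N, ‖f (j + k)‖ ^ 2 ≤ B := by
    intro j
    have h3 := hf (j + N)
    simp only [Real.rpow_two] at h3
    refine le_trans ?_ h3
    rw [Finset.sum_range_add]
    have : 0 ≤ ∑ k ∈ Finset.range j, ‖f k‖ ^ 2 := Finset.sum_nonneg fun _ _ => by positivity
    linarith
  simp only [Real.rpow_two]
  calc ∑ k ∈ Finset.range N, ‖cor A f k‖ ^ 2
      ≤ ∑ k ∈ Finset.range N, s * ∑ j ∈ A.support, ‖A.coeff j‖ * ‖f (j + k)‖ ^ 2 :=
        Finset.sum_le_sum fun k _ => h1 k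
    _ = s * ∑ j ∈ A.support, ‖A.coeff j‖ * ∑ k ∈ Finset.range N, ‖f (j + k)‖ ^ 2 := by
        rw [← Finset.mul_sum, Finset.sum_comm]
        congr 1
        apply Finset.sum_congr rfl
        intro j _
        rw [Finset.mul_sum]
    _ ≤ s * ∑ j ∈ A.support, ‖A.coeff j‖ * B := by
        apply mul_le_mul_of_nonneg_left _ hs0
        apply Finset.sum_le_sum
        intro j _
        exact mul_le_mul_of_nonneg_left (h2 j) (norm_nonneg _)
    _ = s ^ 2 * B := by
        rw [← Finset.sum_mul, ← hs]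
        ring

theorem spr_coeff (c Q : ℂ[X]) (T : ℕ) (hT : Q.natDegree < T) (a b : ℕ) (hb : b < T) :
    (expand ℂ T c * Q).coeff (T * a + b) = c.coeff a * Q.coeff b := by
  have hT0 : 0 < T := by omega
  rw [coeff_mul, Finset.sum_eq_single (T * a, b)]
  · rw [mul_comm T a, coeff_expand_mul hT0]
  · rintro ⟨i, j⟩ hij hne
    rw [Finset.HasAntidiagonal.mem_antidiagonal] at hij
    simp only at hij
    rw [coeff_expand hT0]
    split_ifs with hd
    · obtain ⟨e, rfl⟩ := hd
      by_cases hj : T ≤ j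
      · rw [coeff_eq_zero_of_natDegree_lt (p := Q) (by omega), mul_zero]
      · exfalso
        apply hne
        have h1 : e = a := by
          have e1 : (T * e + j) / T = e := by
            rw [Nat.mul_add_div hT0, Nat.div_eq_of_lt (by omega), add_zero]
          have e2 : (T * a + b) / T = a := by
            rw [Nat.mul_add_div hT0, Nat.div_eq_of_lt hb, add_zero]
          rw [← e1, ← e2, hij]
        subst h1
        have : j = b := by omega
        rw [this]
    · rw [zero_mul]
  · intro h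
    exfalso
    apply h
    rw [Finset.HasAntidiagonal.mem_antidiagonal]

theorem SPRN_proved : S_SPRN := by
  intro c Q T r B B' hT hr hc hQ N
  have hT0 : 0 < T := by omega
  have hB' : 0 ≤ B' := by simpa using hQ 0
  have h1 : ∑ k ∈ Finset.range N, ‖(expand ℂ T c * Q).coeff k‖ ^ r ≤
      ∑ x ∈ Finset.range N ×ˢ Finset.range T, ‖(expand ℂ T c * Q).coeff (T * x.1 + x.2)‖ ^ r := by
    have e1 : ∑ k ∈ Finset.range N, ‖(expand ℂ T c * Q).coeff k‖ ^ r =
        ∑ x ∈ (Finset.range N).image (fun k => (k / T, k % T)),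
          ‖(expand ℂ T c * Q).coeff (T * x.1 + x.2)‖ ^ r := by
      rw [Finset.sum_image]
      · apply Finset.sum_congr rfl
        intro k _
        simp only [Nat.div_add_mod]
      · intro k _ k' _ hkk
        simp only [Prod.mk.injEq] at hkk
        rw [← Nat.div_add_mod k T, ← Nat.div_add_mod k' T, hkk.1, hkk.2]
    rw [e1]
    apply Finset.sum_le_sum_of_subset_of_nonneg
    · intro x hx
      rw [Finset.mem_image] at hx
      obtain ⟨k, hk, rfl⟩ := hx
      rw [Finset.mem_product, Finset.mem_range, Finset.mem_range]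
      rw [Finset.mem_range] at hk
      exact ⟨lt_of_le_of_lt (Nat.div_le_self k T) hk, Nat.mod_lt k hT0⟩
    · intro _ _ _
      positivity
  refine h1.trans ?_
  rw [Finset.sum_product]
  calc ∑ x ∈ Finset.range N, ∑ y ∈ Finset.range T, ‖(expand ℂ T c * Q).coeff (T * x + y)‖ ^ r
      = ∑ x ∈ Finset.range N, ‖c.coeff x‖ ^ r * ∑ y ∈ Finset.range T, ‖Q.coeff y‖ ^ r := by
        apply Finset.sum_congr rfl
        intro x _
        rw [Finset.mul_sum]
        apply Finset.sum_congr rfl
        intro y hy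
        rw [spr_coeff c Q T hT x y (Finset.mem_range.1 hy), norm_mul,
          Real.mul_rpow (norm_nonneg _) (norm_nonneg _)]
    _ ≤ ∑ x ∈ Finset.range N, ‖c.coeff x‖ ^ r * B' := by
        apply Finset.sum_le_sum
        intro x _
        exact mul_le_mul_of_nonneg_left (hQ T) (by positivity)
    _ = (∑ x ∈ Finset.range N, ‖c.coeff x‖ ^ r) * B' := by rw [Finset.sum_mul]
    _ ≤ B * B' := mul_le_mul_of_nonneg_right (hc N) hB'

theorem CORR_proved : S_CORR := by
  intro c Q u T η B hT hη hc hB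
  set d := c.natDegree with hd
  set cb := expand ℂ T (c.map (starRingEnd ℂ)) with hcb
  set ce := expand ℂ T c with hce
  have hcbd : cb.natDegree ≤ T * d := by
    rw [hcb, natDegree_expand, mul_comm]
    exact Nat.mul_le_mul_left T natDegree_map_le
  set W := Q.reverse * u with hW
  set P := reflect (T * d) cb * ce with hP
  have hAd : (cb * Q).natDegree ≤ T * d + Q.natDegree := natDegree_mul_le.trans (by omega)
  have h1 : ∀ k, cor (cb * Q) (ce * u).coeff k - cor Q u.coeff k =
      ((P - X ^ (T * d)) * W).coeff (k + (T * d + Q.natDegree)) := by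
    intro k
    rw [← cor_eq_coeff (cb * Q) (ce * u) _ hAd k, ← cor_eq_coeff Q u _ le_rfl k,
      reflect_mul cb Q hcbd le_rfl]
    have e1 : reflect (T * d) cb * reflect Q.natDegree Q * (ce * u) = P * W := by
      rw [hP, hW, reverse]
      ring
    rw [e1, sub_mul, coeff_sub]
    congr 1
    have e2 : k + (T * d + Q.natDegree) = (k + Q.natDegree) + T * d := by ring
    rw [e2, mul_comm (X ^ (T * d)) W, coeff_mul_X_pow]
    rfl
  have h2 : ∀ z : ℂ, ‖z‖ = 1 → ‖(P - X ^ (T * d)).eval z‖ ≤ η := by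
    intro z hz
    have hz0 : z ≠ 0 := by
      intro h
      rw [h, norm_zero] at hz
      norm_num at hz
    have hw : ‖z ^ T‖ = 1 := by rw [norm_pow, hz, one_pow]
    have e1 : P.eval z = z ^ (T * d) * ((‖c.eval (z ^ T)‖ ^ 2 : ℝ) : ℂ) := by
      rw [hP, eval_mul, eval_reflect' cb (T * d) hcbd z hz0, hcb, hce, expand_eval, expand_eval,
        eval_conj]
      have e2 : (starRingEnd ℂ) (z⁻¹ ^ T) = z ^ T := by
        rw [Complex.inv_eq_conj hz, map_pow, Complex.conj_conj]
      rw [e2, mul_assoc, mul_comm ((starRingEnd ℂ) _), Complex.mul_conj,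
        Complex.normSq_eq_norm_sq]
    rw [eval_sub, e1, eval_pow, eval_X]
    have e3 : z ^ (T * d) * ((‖c.eval (z ^ T)‖ ^ 2 : ℝ) : ℂ) - z ^ (T * d) =
        z ^ (T * d) * ((‖c.eval (z ^ T)‖ ^ 2 - 1 : ℝ) : ℂ) := by
      push_cast
      ring
    rw [e3, norm_mul, norm_pow, hz, one_pow, one_mul, Complex.norm_real, Real.norm_eq_abs]
    exact hc _ hw
  have h3 := N2_mul_le (P - X ^ (T * d)) W η hη h2
  have h4 : N2 W ≤ B := (Bd_two_iff W B).1 hB
  intro N
  simp only [Real.rpow_two, h1]
  have h5 : ∑ k ∈ Finset.range N,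
      ‖((P - X ^ (T * d)) * W).coeff (k + (T * d + Q.natDegree))‖ ^ 2 ≤
      N2 ((P - X ^ (T * d)) * W) := by
    refine le_trans ?_ (sum_range_le_N2 _ (T * d + Q.natDegree + N))
    rw [Finset.sum_range_add]
    have : 0 ≤ ∑ k ∈ Finset.range (T * d + Q.natDegree),
        ‖((P - X ^ (T * d)) * W).coeff k‖ ^ 2 := Finset.sum_nonneg fun _ _ => by positivity
    have e : ∑ k ∈ Finset.range N,
        ‖((P - X ^ (T * d)) * W).coeff (k + (T * d + Q.natDegree))‖ ^ 2 =
        ∑ k ∈ Finset.range N,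
        ‖((P - X ^ (T * d)) * W).coeff ((T * d + Q.natDegree) + k)‖ ^ 2 := by
      apply Finset.sum_congr rfl
      intro k _
      rw [add_comm]
    rw [e]
    linarith
  refine h5.trans (h3.trans ?_)
  exact mul_le_mul_of_nonneg_left h4 (by positivity)

end HM
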