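import Pool.Agent.H87.HM.TOEP

/-! Crew HM, part NEU (helper87). -/

set_option autoImplicit false

open Polynomial Filter Topology

namespace HM

/-- correlation as a coefficient of a product -/
theorem cor_eq_coeff (G y : ℂ[X]) (d : ℕ) (hd : G.natDegree ≤ d) (k : ℕ) :
    (reflect d G * y).coeff (k + d) = cor G y.coeff k := by
  unfold cor
  rw [coeff_mul, Finset.Nat.sum_antidiagonal_eq_sum_range_succ_mk]
  -- sum over i in range (k+d+1) of (reflect d G).coeff i * y.coeff (k+d-i)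
  have h1 : ∀ j ∈ G.support, j ≤ d := fun j hj => (le_natDegree_of_mem_supp j hj).trans hd
  have h2 : ∑ i ∈ Finset.range (k + d).succ, (reflect d G).coeff i * y.coeff (k + d - i) =
      ∑ i ∈ Finset.range (d + 1), (reflect d G).coeff i * y.coeff (k + d - i) := by
    symm
    apply Finset.sum_subset
    · intro i hi
      rw [Finset.mem_range] at hi ⊢
      omega
    · intro i _ hi
      rw [Finset.mem_range, not_lt] at hi
      have : (reflect d G).coeff i = 0 := by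
        rw [coeff_reflect, revAt_eq_self_of_lt (by omega)]
        apply coeff_eq_zero_of_natDegree_lt
        omega
      rw [this, zero_mul]
  rw [h2]
  have h3 : ∑ i ∈ Finset.range (d + 1), (reflect d G).coeff i * y.coeff (k + d - i) =
      ∑ j ∈ Finset.range (d + 1), G.coeff j * y.coeff (j + k) := by
    rw [← Finset.sum_range_reflect]
    apply Finset.sum_congr rfl
    intro j hj
    rw [Finset.mem_range] at hj
    rw [coeff_reflect, revAt_le (by omega)]
    congr 2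
    · omega
    · omega
  rw [h3]
  symm
  apply Finset.sum_subset
  · intro j hj
    rw [Finset.mem_range]
    have := h1 j hj
    omega
  · intro j _ hj
    rw [notMem_support_iff] at hj
    rw [hj, zero_mul]

/-- value of the reflected polynomial -/
theorem eval_reflect' (G : ℂ[X]) (d : ℕ) (hd : G.natDegree ≤ d) (z : ℂ) (hz0 : z ≠ 0) :
    (reflect d G).eval z = z ^ d * G.eval z⁻¹ := by
  have hz1 : z⁻¹ ≠ 0 := inv_ne_zero hz0
  let _ : Invertible z⁻¹ := invertibleOfNonzero hz1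
  have h := eval₂_reflect_mul_pow (RingHom.id ℂ) z⁻¹ d G hd
  rw [invOf_eq_inv, inv_inv] at h
  change (reflect d G).eval z * z⁻¹ ^ d = G.eval z⁻¹ at h
  rw [← h, inv_pow]
  field_simp

theorem eval_conj (G : ℂ[X]) (z : ℂ) :
    (G.map (starRingEnd ℂ)).eval z = (starRingEnd ℂ) (G.eval ((starRingEnd ℂ) z)) := by
  rw [eval_map, ← eval₂_at_apply, Complex.conj_conj]

/-- on the circle the reflected polynomial is `z^d` times the conjugate -/
theorem reflect_mul_conj (G : ℂ[X]) (d : ℕ) (hd : G.natDegree ≤ d) (z : ℂ) (hz : ‖z‖ = 1) :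
    (reflect d G * G.map (starRingEnd ℂ)).eval z =
      z ^ d * ((‖G.eval ((starRingEnd ℂ) z)‖ ^ 2 : ℝ) : ℂ) := by
  have hz0 : z ≠ 0 := by
    intro h
    rw [h, norm_zero] at hz
    norm_num at hz
  have hinv : z⁻¹ = (starRingEnd ℂ) z := Complex.inv_eq_conj hz
  rw [eval_mul, eval_reflect' G d hd z hz0, hinv, eval_conj, mul_assoc, Complex.mul_conj,
    Complex.normSq_eq_norm_sq]

/-- drop the first `d` coefficients -/
noncomputable def drop (d : ℕ) (P : ℂ[X]) : ℂ[X] :=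
  ∑ k ∈ Finset.range (P.natDegree + 1), monomial k (P.coeff (k + d))

theorem drop_coeff (d : ℕ) (P : ℂ[X]) (k : ℕ) : (drop d P).coeff k = P.coeff (k + d) := by
  unfold drop
  rw [finsetSum_coeff]
  simp only [coeff_monomial]
  rw [Finset.sum_ite_eq' (Finset.range (P.natDegree + 1)) k]
  split_ifs with h
  · rfl
  · rw [Finset.mem_range, not_lt] at h
    symm
    apply coeff_eq_zero_of_natDegree_lt
    omega

theorem drop_N2 (d : ℕ) (P : ℂ[X]) : N2 (drop d P) ≤ N2 P := by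
  rw [N2_eq_range (drop d P) (Nat.lt_succ_self _)]
  simp only [drop_coeff]
  calc ∑ k ∈ Finset.range ((drop d P).natDegree.succ), ‖P.coeff (k + d)‖ ^ 2
      ≤ ∑ k ∈ Finset.range ((drop d P).natDegree.succ + d), ‖P.coeff k‖ ^ 2 := by
        rw [← Finset.sum_image (g := fun k => k + d) (f := fun k => ‖P.coeff k‖ ^ 2)]
        · apply Finset.sum_le_sum_of_subset_of_nonneg
          · intro k hk
            rw [Finset.mem_image] at hk
            obtain ⟨j, hj, rfl⟩ := hk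
            rw [Finset.mem_range] at hj ⊢
            omega
          · intro _ _ _
            positivity
        · intro a _ b _ hab
          simpa using hab
    _ ≤ N2 P := sum_range_le_N2 P _

theorem drop_natDegree (d m : ℕ) (P : ℂ[X]) (h : P.natDegree ≤ m + d) :
    (drop d P).natDegree ≤ m := by
  rw [natDegree_le_iff_coeff_eq_zero]
  intro k hk
  rw [drop_coeff]
  apply coeff_eq_zero_of_natDegree_lt
  omega

/-- the polynomial `z^d (1 - l⁻² |G|²)` -/
noncomputable def DD (G : ℂ[X]) (l : ℝ) (d : ℕ) : ℂ[X] :=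
  X ^ d - C (((l ^ 2)⁻¹ : ℝ) : ℂ) * (reflect d G * G.map (starRingEnd ℂ))

theorem DD_le (G : ℂ[X]) (l : ℝ) (d : ℕ) (hl : 0 < l) (hd : G.natDegree ≤ d)
    (h : ∀ z : ℂ, ‖z‖ = 1 → |‖G.eval z‖ ^ 2 - l ^ 2| ≤ l ^ 2 / 2) (z : ℂ) (hz : ‖z‖ = 1) :
    ‖(DD G l d).eval z‖ ≤ 1 / 2 := by
  unfold DD
  rw [eval_sub, eval_mul, eval_C, reflect_mul_conj G d hd z hz, eval_pow, eval_X]
  have h1 := h ((starRingEnd ℂ) z) (by rw [RCLike.norm_conj]; exact hz)
  set a := ‖G.eval ((starRingEnd ℂ) z)‖ ^ 2 with ha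
  have e : z ^ d - (((l ^ 2)⁻¹ : ℝ) : ℂ) * (z ^ d * ((a : ℝ) : ℂ)) =
      z ^ d * (((l ^ 2)⁻¹ * (l ^ 2 - a) : ℝ) : ℂ) := by
    have : (l : ℂ) ≠ 0 := by exact_mod_cast hl.ne'
    push_cast
    field_simp
  rw [e, norm_mul, norm_pow, hz, one_pow, one_mul, Complex.norm_real, Real.norm_eq_abs, abs_mul,
    abs_of_pos (by positivity : (0 : ℝ) < (l ^ 2)⁻¹), abs_sub_comm]
  rw [inv_mul_le_iff₀ (by positivity)]
  linarith

theorem DD_natDegree (G : ℂ[X]) (l : ℝ) (d : ℕ) (hd : G.natDegree ≤ d) :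
    (DD G l d).natDegree ≤ 2 * d := by
  unfold DD
  have h1 : (reflect d G).natDegree ≤ d := by
    rw [natDegree_le_iff_coeff_eq_zero]
    intro k hk
    rw [coeff_reflect, revAt_eq_self_of_lt hk]
    apply coeff_eq_zero_of_natDegree_lt
    omega
  have h2 : (G.map (starRingEnd ℂ)).natDegree ≤ d := natDegree_map_le.trans hd
  apply (natDegree_sub_le _ _).trans
  apply max_le
  · rw [natDegree_X_pow]
    omega
  · apply (natDegree_C_mul_le _ _).trans
    apply natDegree_mul_le.trans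
    omega

/-- one step: `y - l⁻² T y` -/
noncomputable def AA (G : ℂ[X]) (l : ℝ) (d : ℕ) (y : ℂ[X]) : ℂ[X] := drop d (DD G l d * y)

theorem AA_coeff (G : ℂ[X]) (l : ℝ) (d : ℕ) (hd : G.natDegree ≤ d) (y : ℂ[X]) (k : ℕ) :
    (AA G l d y).coeff k =
      y.coeff k - (((l ^ 2)⁻¹ : ℝ) : ℂ) * cor G (G.map (starRingEnd ℂ) * y).coeff k := by
  unfold AA DD
  rw [drop_coeff, sub_mul, coeff_sub, mul_assoc, coeff_C_mul, mul_assoc,
    cor_eq_coeff G _ d hd k, add_comm k d, coeff_X_pow_mul']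
  simp

theorem AA_N2 (G : ℂ[X]) (l : ℝ) (d : ℕ) (hl : 0 < l) (hd : G.natDegree ≤ d)
    (h : ∀ z : ℂ, ‖z‖ = 1 → |‖G.eval z‖ ^ 2 - l ^ 2| ≤ l ^ 2 / 2) (y : ℂ[X]) :
    N2 (AA G l d y) ≤ (1 / 4) * N2 y := by
  unfold AA
  apply (drop_N2 _ _).trans
  have := N2_mul_le (DD G l d) y (1 / 2) (by norm_num) (DD_le G l d hl hd h)
  norm_num at this ⊢
  exact this

theorem AA_natDegree (G : ℂ[X]) (l : ℝ) (d : ℕ) (hd : G.natDegree ≤ d) (y : ℂ[X]) (m : ℕ)
    (hy : y.natDegree ≤ m) : (AA G l d y).natDegree ≤ m + d := by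
  unfold AA
  apply drop_natDegree
  apply natDegree_mul_le.trans
  have := DD_natDegree G l d hd
  omega

/-- finite `ℓ^p` norm -/
noncomputable def nrm (p : ℝ) (N : ℕ) (f : ℕ → ℂ) : ℝ :=
  (∑ k ∈ Finset.range N, ‖f k‖ ^ p) ^ (1 / p)

theorem nrm_add (p : ℝ) (hp : 1 ≤ p) (N : ℕ) (f g : ℕ → ℂ) :
    nrm p N (fun k => f k + g k) ≤ nrm p N f + nrm p N g := by
  unfold nrm
  refine le_trans ?_ (Real.Lp_add_le_of_nonneg (Finset.range N) hp
    (fun i _ => norm_nonneg (f i)) (fun i _ => norm_nonneg (g i)))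
  apply Real.rpow_le_rpow (Finset.sum_nonneg fun _ _ => by positivity) _ (by positivity)
  apply Finset.sum_le_sum
  intro k _
  exact Real.rpow_le_rpow (norm_nonneg _) (norm_add_le _ _) (by linarith)

theorem nrm_sum (p : ℝ) (hp : 1 ≤ p) (N : ℕ) (f : ℕ → ℕ → ℂ) (M : ℕ) :
    nrm p N (fun k => ∑ n ∈ Finset.range M, f n k) ≤ ∑ n ∈ Finset.range M, nrm p N (f n) := by
  induction M with
  | zero =>
    unfold nrm
    simp [Real.zero_rpow (by linarith : p ≠ 0), Real.zero_rpow (by positivity : p⁻¹ ≠ 0)]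
  | succ M ih =>
    simp only [Finset.sum_range_succ]
    exact (nrm_add p hp N _ _).trans (add_le_add_left ih _)

/-- `ℓ^p` norm against the `ℓ²` norm for short sequences -/
theorem nrm_short (p : ℝ) (hp : 1 < p) (hp2 : p < 2) (N : ℕ) (g : ℂ[X]) (m : ℕ)
    (hm : g.natDegree < m) (c : ℝ) (hc : 0 ≤ c) (h : N2 g ≤ c ^ 2) :
    nrm p N g.coeff ≤ (m : ℝ) ^ (1 / p - 1 / 2) * c := by
  have hp0 : 0 < p := by linarith
  -- reduce to the range m
  have h1 : ∑ k ∈ Finset.range N, ‖g.coeff k‖ ^ p ≤ ∑ k ∈ Finset.range m, ‖g.coeff k‖ ^ p := by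
    calc ∑ k ∈ Finset.range N, ‖g.coeff k‖ ^ p
        = ∑ k ∈ (Finset.range N).filter (fun k => k < m), ‖g.coeff k‖ ^ p := by
          symm
          apply Finset.sum_subset (Finset.filter_subset _ _)
          intro k hk hk2
          have hk3 : m ≤ k := by
            by_contra hlt
            exact hk2 (Finset.mem_filter.2 ⟨hk, not_le.1 hlt⟩)
          have : g.coeff k = 0 := coeff_eq_zero_of_natDegree_lt (by omega)
          rw [this, norm_zero, Real.zero_rpow hp0.ne']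
      _ ≤ _ := Finset.sum_le_sum_of_subset_of_nonneg
          (fun k hk => Finset.mem_range.2 (Finset.mem_filter.1 hk).2) fun _ _ _ => by positivity
  have h2 := Real.rpow_sum_le_const_mul_sum_rpow (Finset.range m) (fun k => ‖g.coeff k‖ ^ p)
    (p := 2 / p) (by rw [le_div_iff₀ hp0]; linarith)
  have h3 : ∀ k, |‖g.coeff k‖ ^ p| = ‖g.coeff k‖ ^ p := fun k => abs_of_nonneg (by positivity)
  simp only [h3] at h2
  have h4 : ∀ k, (‖g.coeff k‖ ^ p) ^ (2 / p) = ‖g.coeff k‖ ^ 2 := by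
    intro k
    rw [← Real.rpow_mul (norm_nonneg _)]
    rw [show p * (2 / p) = 2 by field_simp]
    rw [Real.rpow_two]
  simp only [h4] at h2
  rw [Finset.card_range] at h2
  have h5 : ∑ k ∈ Finset.range m, ‖g.coeff k‖ ^ 2 ≤ c ^ 2 := (sum_range_le_N2 g m).trans h
  set S := ∑ k ∈ Finset.range m, ‖g.coeff k‖ ^ p with hS
  have hS0 : 0 ≤ S := Finset.sum_nonneg fun _ _ => by positivity
  have h6 : S ^ (2 / p) ≤ (m : ℝ) ^ (2 / p - 1) * c ^ 2 :=
    h2.trans (mul_le_mul_of_nonneg_left h5 (by positivity))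
  unfold nrm
  have h7 : (∑ k ∈ Finset.range N, ‖g.coeff k‖ ^ p) ^ (1 / p) ≤ S ^ (1 / p) :=
    Real.rpow_le_rpow (Finset.sum_nonneg fun _ _ => by positivity) h1 (by positivity)
  refine h7.trans ?_
  have h8 : S ^ (1 / p) = (S ^ (2 / p)) ^ (1 / 2 : ℝ) := by
    rw [← Real.rpow_mul hS0]
    congr 1
    field_simp
  rw [h8]
  have h9 : (m : ℝ) ^ (1 / p - 1 / 2) * c = ((m : ℝ) ^ (2 / p - 1) * c ^ 2) ^ (1 / 2 : ℝ) := by
    rw [Real.mul_rpow (by positivity) (by positivity), ← Real.rpow_mul (by positivity),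
      ← Real.rpow_natCast c 2, ← Real.rpow_mul hc]
    norm_num
    left
    congr 1
    field_simp
  rw [h9]
  exact Real.rpow_le_rpow (by positivity) h6 (by norm_num)

theorem geom_sum_bound (M : ℕ) :
    ∑ n ∈ Finset.range M, ((n : ℝ) + 3) * (1 / 2) ^ n = 8 - (2 * M + 8) * (1 / 2) ^ M := by
  induction M with
  | zero => simp
  | succ M ih =>
    rw [Finset.sum_range_succ, ih, pow_succ]
    push_cast
    ring

/-- the iterates -/
noncomputable def yy (G : ℂ[X]) (l : ℝ) (d : ℕ) (y0 : ℂ[X]) : ℕ → ℂ[X]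
  | 0 => y0
  | n + 1 => AA G l d (yy G l d y0 n)

theorem yy_N2 (G : ℂ[X]) (l : ℝ) (d : ℕ) (hl : 0 < l) (hd : G.natDegree ≤ d)
    (h : ∀ z : ℂ, ‖z‖ = 1 → |‖G.eval z‖ ^ 2 - l ^ 2| ≤ l ^ 2 / 2) (y0 : ℂ[X]) (n : ℕ) :
    N2 (yy G l d y0 n) ≤ (1 / 4) ^ n * N2 y0 := by
  induction n with
  | zero => simp [yy]
  | succ n ih =>
    have h1 := AA_N2 G l d hl hd h (yy G l d y0 n)
    show N2 (AA G l d (yy G l d y0 n)) ≤ _
    rw [pow_succ]
    linarith

theorem yy_natDegree (G : ℂ[X]) (l : ℝ) (d : ℕ) (hd : G.natDegree ≤ d) (y0 : ℂ[X])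
    (hy : y0.natDegree ≤ d) (n : ℕ) : (yy G l d y0 n).natDegree ≤ (n + 1) * d := by
  induction n with
  | zero => simpa [yy] using hy
  | succ n ih =>
    show (AA G l d (yy G l d y0 n)).natDegree ≤ _
    have := AA_natDegree G l d hd _ _ ih
    have e : (n + 1 + 1) * d = (n + 1) * d + d := by ring
    rw [e]
    exact this

theorem conj_eval_le (G : ℂ[X]) (l : ℝ) (hl : 0 < l)
    (h : ∀ z : ℂ, ‖z‖ = 1 → |‖G.eval z‖ ^ 2 - l ^ 2| ≤ l ^ 2 / 2) (z : ℂ) (hz : ‖z‖ = 1) :
    ‖(G.map (starRingEnd ℂ)).eval z‖ ≤ 5 / 4 * l := by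
  rw [eval_conj, RCLike.norm_conj]
  have h1 := (abs_le.1 (h ((starRingEnd ℂ) z) (by rw [RCLike.norm_conj]; exact hz))).2
  have h2 : ‖G.eval ((starRingEnd ℂ) z)‖ ^ 2 ≤ (5 / 4 * l) ^ 2 := by nlinarith
  exact (pow_le_pow_iff_left₀ (norm_nonneg _) (by positivity) (by norm_num)).1 h2

/-- the terms of the solution -/
noncomputable def gg (G : ℂ[X]) (l : ℝ) (d : ℕ) (y0 : ℂ[X]) (n : ℕ) : ℂ[X] :=
  C (((l ^ 2)⁻¹ : ℝ) : ℂ) * (G.map (starRingEnd ℂ) * yy G l d y0 n)

theorem gg_N2 (G : ℂ[X]) (l : ℝ) (d : ℕ) (hl : 0 < l) (hd : G.natDegree ≤ d)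
    (h : ∀ z : ℂ, ‖z‖ = 1 → |‖G.eval z‖ ^ 2 - l ^ 2| ≤ l ^ 2 / 2) (y0 : ℂ[X]) (ε : ℝ)
    (hy : N2 y0 ≤ ε ^ 2) (n : ℕ) :
    N2 (gg G l d y0 n) ≤ (5 / 4 * (1 / 2) ^ n * (ε / l)) ^ 2 := by
  unfold gg
  have h1 := N2_mul_le (C (((l ^ 2)⁻¹ : ℝ) : ℂ)) (G.map (starRingEnd ℂ) * yy G l d y0 n)
    ((l ^ 2)⁻¹) (by positivity) (by
      intro z _
      rw [eval_C, Complex.norm_real, Real.norm_eq_abs, abs_of_pos (by positivity)])
  have h2 := N2_mul_le (G.map (starRingEnd ℂ)) (yy G l d y0 n) (5 / 4 * l) (by positivity)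
    (conj_eval_le G l hl h)
  have h3 := yy_N2 G l d hl hd h y0 n
  have h4 : (1 / 4 : ℝ) ^ n * N2 y0 ≤ (1 / 4) ^ n * ε ^ 2 :=
    mul_le_mul_of_nonneg_left hy (by positivity)
  have h5 : N2 (C (((l ^ 2)⁻¹ : ℝ) : ℂ) * (G.map (starRingEnd ℂ) * yy G l d y0 n)) ≤
      ((l ^ 2)⁻¹) ^ 2 * ((5 / 4 * l) ^ 2 * ((1 / 4) ^ n * ε ^ 2)) := by
    refine h1.trans (mul_le_mul_of_nonneg_left ?_ (by positivity))
    refine h2.trans (mul_le_mul_of_nonneg_left ?_ (by positivity))
    exact h3.trans h4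
  refine h5.trans (le_of_eq ?_)
  have e : (1 / 4 : ℝ) ^ n = ((1 / 2) ^ n) ^ 2 := by
    rw [← pow_mul, mul_comm, pow_mul]
    norm_num
  rw [e]
  field_simp

theorem gg_natDegree (G : ℂ[X]) (l : ℝ) (d : ℕ) (hd : G.natDegree ≤ d) (h0 : 0 < d) (y0 : ℂ[X])
    (hy : y0.natDegree ≤ d) (n : ℕ) : (gg G l d y0 n).natDegree < (n + 3) * d := by
  unfold gg
  have h1 := yy_natDegree G l d hd y0 hy n
  have h2 : (G.map (starRingEnd ℂ)).natDegree ≤ d := natDegree_map_le.trans hd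
  have h3 : (C (((l ^ 2)⁻¹ : ℝ) : ℂ) * (G.map (starRingEnd ℂ) * yy G l d y0 n)).natDegree ≤
      (n + 1) * d + d := by
    apply (natDegree_C_mul_le _ _).trans
    apply natDegree_mul_le.trans
    omega
  have e : (n + 3) * d = (n + 1) * d + d + d := by ring
  omega

theorem coeff_sq_le_N2 (x : ℂ[X]) (k : ℕ) : ‖x.coeff k‖ ^ 2 ≤ N2 x := by
  refine le_trans ?_ (sum_range_le_N2 x (k + 1))
  exact Finset.single_le_sum (f := fun k => ‖x.coeff k‖ ^ 2) (fun _ _ => by positivity)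
    (Finset.mem_range.2 (Nat.lt_succ_self k))

theorem coeff_le_of_N2 (x : ℂ[X]) (c : ℝ) (hc : 0 ≤ c) (h : N2 x ≤ c ^ 2) (k : ℕ) :
    ‖x.coeff k‖ ≤ c :=
  (pow_le_pow_iff_left₀ (norm_nonneg _) hc (by norm_num)).1 ((coeff_sq_le_N2 x k).trans h)

theorem gg_cor (G : ℂ[X]) (l : ℝ) (d : ℕ) (hd : G.natDegree ≤ d) (y0 : ℂ[X]) (n k : ℕ) :
    cor G (gg G l d y0 n).coeff k = (yy G l d y0 n).coeff k - (yy G l d y0 (n + 1)).coeff k := by
  have h1 := AA_coeff G l d hd (yy G l d y0 n) k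
  show _ = _ - (AA G l d (yy G l d y0 n)).coeff k
  rw [h1]
  unfold gg cor
  simp only [coeff_C_mul]
  rw [sub_sub_cancel, Finset.mul_sum]
  apply Finset.sum_congr rfl
  intro j _
  ring

theorem NEU_proved : S_NEU := by
  intro p hp hp2
  refine ⟨10, by norm_num, ?_⟩
  intro G l d E ε hl hd0 hε hd h hE hE2
  have hp0 : 0 < p := by linarith
  -- the starting polynomial
  obtain ⟨y0, hy0c, hy0d⟩ : ∃ y0 : ℂ[X], (∀ k, y0.coeff k = - E k) ∧ y0.natDegree ≤ d := by
    refine ⟨∑ k ∈ Finset.range (d + 1), monomial k (- E k), ?_, ?_⟩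
    · intro k
      rw [finsetSum_coeff]
      simp only [coeff_monomial]
      rw [Finset.sum_ite_eq' (Finset.range (d + 1)) k]
      split_ifs with hk
      · rfl
      · rw [Finset.mem_range, not_lt] at hk
        rw [hE k (by omega), neg_zero]
    · rw [natDegree_le_iff_coeff_eq_zero]
      intro k hk
      rw [finsetSum_coeff]
      simp only [coeff_monomial]
      rw [Finset.sum_ite_eq' (Finset.range (d + 1)) k]
      split_ifs with hk2
      · rw [Finset.mem_range] at hk2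
        omega
      · rfl
  have hy0N : N2 y0 ≤ ε ^ 2 := by
    rw [← Bd_two_iff]
    intro n
    have := hE2 n
    simpa [hy0c] using this
  set a : ℕ → ℝ := fun n => 5 / 4 * (1 / 2) ^ n * (ε / l) with ha
  have ha0 : ∀ n, 0 ≤ a n := fun n => by positivity
  have hg2 : ∀ n, N2 (gg G l d y0 n) ≤ (a n) ^ 2 := fun n => gg_N2 G l d hl hd h y0 ε hy0N n
  have hgd := fun n => gg_natDegree G l d hd hd0 y0 hy0d n
  have hsa : Summable a := by
    have : Summable fun n : ℕ => (1 / 2 : ℝ) ^ n := summable_geometric_two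
    have h2 := (this.mul_left (5 / 4)).mul_right (ε / l)
    exact h2
  have hsum : ∀ k, Summable fun n => (gg G l d y0 n).coeff k := fun k =>
    Summable.of_norm_bounded hsa fun n => coeff_le_of_N2 _ _ (ha0 n) (hg2 n) k
  set hh : ℕ → ℂ := fun k => ∑' n, (gg G l d y0 n).coeff k with hhh
  have htend : ∀ k, Tendsto (fun M => ∑ n ∈ Finset.range M, (gg G l d y0 n).coeff k) atTop
      (𝓝 (hh k)) := fun k => (hsum k).hasSum.tendsto_sum_nat
  refine ⟨hh, ?_, ?_⟩
  · intro N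
    set Cc := 10 * (d : ℝ) ^ (1 / p - 1 / 2) / l * ε with hCc
    have hC0 : 0 ≤ Cc := by positivity
    have hM : ∀ M, ∑ k ∈ Finset.range N, ‖∑ n ∈ Finset.range M, (gg G l d y0 n).coeff k‖ ^ p ≤
        Cc ^ p := by
      intro M
      have h1 := nrm_sum p hp.le N (fun n => (gg G l d y0 n).coeff) M
      have h2 : ∀ n, nrm p N (gg G l d y0 n).coeff ≤
          ((n : ℝ) + 3) * (d : ℝ) ^ (1 / p - 1 / 2) * a n := by
        intro n
        refine (nrm_short p hp hp2 N _ _ (hgd n) (a n) (ha0 n) (hg2 n)).trans ?_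
        apply mul_le_mul_of_nonneg_right _ (ha0 n)
        push_cast
        rw [Real.mul_rpow (by positivity) (by positivity)]
        apply mul_le_mul_of_nonneg_right _ (by positivity)
        have e1 : ((n : ℝ) + 3) ^ (1 / p - 1 / 2) ≤ ((n : ℝ) + 3) ^ (1 : ℝ) := by
          apply Real.rpow_le_rpow_of_exponent_le
          · have : (0 : ℝ) ≤ n := Nat.cast_nonneg n
            linarith
          · have : 1 / p ≤ 1 := by
              rw [div_le_one hp0]
              linarith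
            linarith
        rwa [Real.rpow_one] at e1
      have h3 : nrm p N (fun k => ∑ n ∈ Finset.range M, (gg G l d y0 n).coeff k) ≤ Cc := by
        refine h1.trans ((Finset.sum_le_sum fun n _ => h2 n).trans ?_)
        have e2 : ∑ n ∈ Finset.range M, ((n : ℝ) + 3) * (d : ℝ) ^ (1 / p - 1 / 2) * a n =
            ((d : ℝ) ^ (1 / p - 1 / 2) / l * ε) * (5 / 4) *
              ∑ n ∈ Finset.range M, ((n : ℝ) + 3) * (1 / 2) ^ n := by
          rw [Finset.mul_sum]
          apply Finset.sum_congr rfl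
          intro n _
          rw [ha]
          field_simp
        rw [e2, geom_sum_bound]
        have e3 : (8 : ℝ) - (2 * M + 8) * (1 / 2) ^ M ≤ 8 := by
          have : (0 : ℝ) ≤ (2 * M + 8) * (1 / 2) ^ M := by positivity
          linarith
        have e4 : ((d : ℝ) ^ (1 / p - 1 / 2) / l * ε) * (5 / 4) *
            ((8 : ℝ) - (2 * M + 8) * (1 / 2) ^ M) ≤
            ((d : ℝ) ^ (1 / p - 1 / 2) / l * ε) * (5 / 4) * 8 :=
          mul_le_mul_of_nonneg_left e3 (by positivity)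
        refine e4.trans (le_of_eq ?_)
        rw [hCc]
        ring
      unfold nrm at h3
      have h4 := Real.rpow_le_rpow (by positivity) h3 hp0.le
      rwa [← Real.rpow_mul (Finset.sum_nonneg fun _ _ => by positivity),
        one_div_mul_cancel hp0.ne', Real.rpow_one] at h4
    have hlim : Tendsto (fun M => ∑ k ∈ Finset.range N,
        ‖∑ n ∈ Finset.range M, (gg G l d y0 n).coeff k‖ ^ p) atTop
        (𝓝 (∑ k ∈ Finset.range N, ‖hh k‖ ^ p)) := by
      apply tendsto_finsetSum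
      intro k _
      exact ((htend k).norm).rpow_const (Or.inr hp0.le)
    exact le_of_tendsto' hlim hM
  · intro k
    have h1 : Tendsto (fun M => ∑ j ∈ G.support, G.coeff j *
        ∑ n ∈ Finset.range M, (gg G l d y0 n).coeff (j + k)) atTop (𝓝 (cor G hh k)) := by
      unfold cor
      apply tendsto_finsetSum
      intro j _
      exact (htend (j + k)).const_mul _
    have h2 : ∀ M, ∑ j ∈ G.support, G.coeff j *
        ∑ n ∈ Finset.range M, (gg G l d y0 n).coeff (j + k) =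
        (yy G l d y0 0).coeff k - (yy G l d y0 M).coeff k := by
      intro M
      rw [← Finset.sum_range_sub' (fun n => (yy G l d y0 n).coeff k) M]
      simp only [Finset.mul_sum]
      rw [Finset.sum_comm]
      apply Finset.sum_congr rfl
      intro n _
      exact gg_cor G l d hd y0 n k
    simp only [h2] at h1
    have h3 : Tendsto (fun M => (yy G l d y0 M).coeff k) atTop (𝓝 0) := by
      apply squeeze_zero_norm (a := fun M : ℕ => (1 / 2 : ℝ) ^ M * ε)
      · intro M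
        apply coeff_le_of_N2 _ _ (by positivity)
        have h4 := yy_N2 G l d hl hd h y0 M
        have h5 : (1 / 4 : ℝ) ^ M * N2 y0 ≤ (1 / 4) ^ M * ε ^ 2 :=
          mul_le_mul_of_nonneg_left hy0N (by positivity)
        refine (h4.trans h5).trans (le_of_eq ?_)
        rw [mul_pow, ← pow_mul, mul_comm M 2, pow_mul]
        norm_num
      · have : Tendsto (fun M : ℕ => (1 / 2 : ℝ) ^ M * ε) atTop (𝓝 (0 * ε)) :=
          (tendsto_pow_atTop_nhds_zero_of_lt_one (by norm_num) (by norm_num)).mul_const ε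
        rwa [zero_mul] at this
    have h4 : Tendsto (fun M => (yy G l d y0 0).coeff k - (yy G l d y0 M).coeff k) atTop
        (𝓝 ((yy G l d y0 0).coeff k - 0)) := tendsto_const_nhds.sub h3
    have h5 := tendsto_nhds_unique h1 h4
    rw [h5, sub_zero]
    exact hy0c k

end HM
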